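import Pool.Agent.N71.RP.Stm

/-!
# Project RP: partial sums of the convolution of two characters (leaf RP/PSI, helper692)
-/

set_option autoImplicit false

namespace Pool.Agent.N692.RP

open Finset
open Pool.Agent.N71.RP

/-- sums over pairs -/
theorem pairs (F G : ℕ → ℝ) (u : ℕ) :
    ∑ n ∈ Finset.Icc 1 u, ∑ m ∈ n.divisors, F m * G (n / m) =
      ∑ a ∈ Finset.Icc 1 u, F a * ∑ b ∈ Finset.Icc 1 (u / a), G b := by
  rw [Finset.sum_comm' (s := Finset.Icc 1 u) (t := fun n => n.divisors) (t' := Finset.Icc 1 u)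
    (s' := fun m => (Finset.Icc 1 u).filter (fun n => m ∣ n))]
  · refine Finset.sum_congr rfl fun a ha => ?_
    have ha1 : 0 < a := (Finset.mem_Icc.1 ha).1
    rw [Finset.mul_sum]
    symm
    refine Finset.sum_bij' (fun b _ => a * b) (fun n _ => n / a) ?_ ?_ ?_ ?_ ?_
    · intro b hb
      obtain ⟨hb1, hb2⟩ := Finset.mem_Icc.1 hb
      rw [Finset.mem_filter, Finset.mem_Icc]
      refine ⟨⟨Nat.mul_pos ha1 hb1, ?_⟩, dvd_mul_right a b⟩
      rw [mul_comm]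
      exact (Nat.le_div_iff_mul_le ha1).1 hb2
    · intro n hn
      rw [Finset.mem_filter, Finset.mem_Icc] at hn
      obtain ⟨⟨h1, h2⟩, k, rfl⟩ := hn
      rw [Nat.mul_div_cancel_left k ha1, Finset.mem_Icc]
      refine ⟨Nat.pos_of_ne_zero (by rintro rfl; simp at h1), ?_⟩
      rw [Nat.le_div_iff_mul_le ha1, mul_comm]
      exact h2
    · intro b _
      exact Nat.mul_div_cancel_left b ha1
    · intro n hn
      rw [Finset.mem_filter] at hn
      exact Nat.mul_div_cancel' hn.2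
    · intro b _
      rw [Nat.mul_div_cancel_left b ha1]
  · intro n m
    rw [Nat.mem_divisors, Finset.mem_filter, Finset.mem_Icc, Finset.mem_Icc]
    constructor
    · rintro ⟨⟨h1, h2⟩, h3, h4⟩
      exact ⟨⟨⟨h1, h2⟩, h3⟩, Nat.pos_of_dvd_of_pos h3 h1, (Nat.le_of_dvd h1 h3).trans h2⟩
    · rintro ⟨⟨⟨h1, h2⟩, h3⟩, _⟩
      exact ⟨⟨h1, h2⟩, h3, by omega⟩

/-- the hyperbola method -/
theorem hyper (F G : ℕ → ℝ) (u s : ℕ) (h1 : s * s ≤ u) (h2 : u < (s + 1) * (s + 1)) :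
    ∑ n ∈ Finset.Icc 1 u, ∑ m ∈ n.divisors, F m * G (n / m) =
      ∑ a ∈ Finset.Icc 1 s, F a * ∑ b ∈ Finset.Icc 1 (u / a), G b +
        ∑ b ∈ Finset.Icc 1 s, G b * ∑ a ∈ Finset.Ioc s (u / b), F a := by
  rw [pairs]
  have hsu : s ≤ u := by
    rcases Nat.eq_zero_or_pos s with h | h
    · omega
    · exact (Nat.le_mul_of_pos_left s h).trans h1
  have e1 : Finset.Icc 1 u = Finset.Icc 1 s ∪ Finset.Ioc s u := by
    ext k
    simp only [Finset.mem_Icc, Finset.mem_union, Finset.mem_Ioc]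
    omega
  have e2 : Disjoint (Finset.Icc 1 s) (Finset.Ioc s u) := by
    rw [Finset.disjoint_left]
    intro k hk hk'
    rw [Finset.mem_Icc] at hk
    rw [Finset.mem_Ioc] at hk'
    omega
  rw [e1, Finset.sum_union e2]
  congr 1
  simp_rw [Finset.mul_sum]
  rw [Finset.sum_comm' (s := Finset.Ioc s u) (t := fun a => Finset.Icc 1 (u / a))
    (t' := Finset.Icc 1 s) (s' := fun b => Finset.Ioc s (u / b))]
  · refine Finset.sum_congr rfl fun b _ => Finset.sum_congr rfl fun a _ => mul_comm _ _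
  · intro a b
    simp only [Finset.mem_Icc, Finset.mem_Ioc]
    constructor
    · rintro ⟨⟨h3, h4⟩, h5, h6⟩
      have ha : 0 < a := by omega
      rw [Nat.le_div_iff_mul_le ha] at h6
      refine ⟨⟨h3, ?_⟩, h5, ?_⟩
      · rw [Nat.le_div_iff_mul_le h5, mul_comm]
        exact h6
      · by_contra hc
        have h7 : (s + 1) * (s + 1) ≤ b * a := Nat.mul_le_mul (by omega) (by omega)
        omega
    · rintro ⟨⟨h3, h4⟩, h5, h6⟩
      rw [Nat.le_div_iff_mul_le h5] at h4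
      have ha : 0 < a := by omega
      refine ⟨⟨h3, ?_⟩, h5, ?_⟩
      · exact (Nat.le_mul_of_pos_right a h5).trans h4
      · rw [Nat.le_div_iff_mul_le ha, mul_comm]
        exact h4

theorem val_le {f : ℕ → ℝ} {Q : ℝ} (hf : Chr f Q) (n : ℕ) : |f n| ≤ 1 := by
  rcases hf.val n with h | h | h <;> rw [h] <;> norm_num

theorem Q_nonneg {f : ℕ → ℝ} {Q : ℝ} (hf : Chr f Q) : 0 ≤ Q := (abs_nonneg _).trans (hf.sum 0)

theorem sum_Ioc_eq (f : ℕ → ℝ) (t w : ℕ) (h : t ≤ w) :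
    ∑ m ∈ Finset.Ioc t w, f m = ∑ m ∈ Finset.Icc 1 w, f m - ∑ m ∈ Finset.Icc 1 t, f m := by
  have e1 : Finset.Icc 1 w = Finset.Icc 1 t ∪ Finset.Ioc t w := by
    ext k
    simp only [Finset.mem_Icc, Finset.mem_union, Finset.mem_Ioc]
    omega
  have e2 : Disjoint (Finset.Icc 1 t) (Finset.Ioc t w) := by
    rw [Finset.disjoint_left]
    intro k hk hk'
    rw [Finset.mem_Icc] at hk
    rw [Finset.mem_Ioc] at hk'
    omega
  rw [e1, Finset.sum_union e2]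
  ring

theorem sum_Ioc_le {f : ℕ → ℝ} {Q : ℝ} (hf : Chr f Q) (t w : ℕ) (h : t ≤ w) :
    |∑ m ∈ Finset.Ioc t w, f m| ≤ 2 * Q := by
  rw [sum_Ioc_eq f t w h]
  have h1 := hf.sum w
  have h2 := hf.sum t
  have h3 := abs_sub (∑ m ∈ Finset.Icc 1 w, f m) (∑ m ∈ Finset.Icc 1 t, f m)
  linarith

theorem sum_Ioc_le' {f : ℕ → ℝ} {Q : ℝ} (hf : Chr f Q) (t w : ℕ) :
    |∑ m ∈ Finset.Ioc t w, f m| ≤ 2 * Q := by
  rcases le_total t w with h | h
  · exact sum_Ioc_le hf t w h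
  · rw [Finset.Ioc_eq_empty (by omega), Finset.sum_empty, abs_zero]
    have := Q_nonneg hf
    linarith

/-- the partial sums of the convolution -/
theorem T_le {f h : ℕ → ℝ} {Q : ℝ} (hf : Chr f Q) (hh : Chr h Q) (u : ℕ) :
    |∑ n ∈ Finset.Icc 1 u, cv f h n| ≤ 3 * Q * Real.sqrt u := by
  have hQ := Q_nonneg hf
  unfold cv
  rw [hyper f h u (Nat.sqrt u) (Nat.sqrt_le u) (Nat.lt_succ_sqrt u)]
  have hs : (Nat.sqrt u : ℝ) ≤ Real.sqrt u := Real.nat_sqrt_le_real_sqrt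
  have h1 : |∑ a ∈ Finset.Icc 1 (Nat.sqrt u), f a * ∑ b ∈ Finset.Icc 1 (u / a), h b| ≤
      (Nat.sqrt u : ℝ) * Q := by
    refine (Finset.abs_sum_le_sum_abs _ _).trans ?_
    refine (Finset.sum_le_sum (g := fun _ => Q) fun a _ => ?_).trans ?_
    · rw [abs_mul]
      calc |f a| * |∑ b ∈ Finset.Icc 1 (u / a), h b| ≤ 1 * Q :=
            mul_le_mul (val_le hf a) (hh.sum _) (abs_nonneg _) zero_le_one
        _ = Q := one_mul _
    · rw [Finset.sum_const, Nat.card_Icc, nsmul_eq_mul, Nat.add_sub_cancel]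
  have h2 : |∑ b ∈ Finset.Icc 1 (Nat.sqrt u), h b * ∑ a ∈ Finset.Ioc (Nat.sqrt u) (u / b), f a| ≤
      (Nat.sqrt u : ℝ) * (2 * Q) := by
    refine (Finset.abs_sum_le_sum_abs _ _).trans ?_
    refine (Finset.sum_le_sum (g := fun _ => 2 * Q) fun b _ => ?_).trans ?_
    · rw [abs_mul]
      calc |h b| * |∑ a ∈ Finset.Ioc (Nat.sqrt u) (u / b), f a| ≤ 1 * (2 * Q) :=
            mul_le_mul (val_le hh b) (sum_Ioc_le' hf _ _) (abs_nonneg _) zero_le_one
        _ = 2 * Q := one_mul _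
    · rw [Finset.sum_const, Nat.card_Icc, nsmul_eq_mul, Nat.add_sub_cancel]
  have h3 := abs_add_le (∑ a ∈ Finset.Icc 1 (Nat.sqrt u), f a * ∑ b ∈ Finset.Icc 1 (u / a), h b)
    (∑ b ∈ Finset.Icc 1 (Nat.sqrt u), h b * ∑ a ∈ Finset.Ioc (Nat.sqrt u) (u / b), f a)
  have h4 : (Nat.sqrt u : ℝ) * (3 * Q) ≤ Real.sqrt u * (3 * Q) :=
    mul_le_mul_of_nonneg_right hs (by positivity)
  linarith

/-- tails of `∑ f m / m` -/
theorem tail {f : ℕ → ℝ} {Q : ℝ} (hf : Chr f Q) (t w : ℕ) (h : t ≤ w) :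
    |∑ m ∈ Finset.Ioc t w, f m / m| ≤ 2 * Q / (t + 1) := by
  have hQ := Q_nonneg hf
  have key : ∀ k : ℕ, |∑ m ∈ Finset.Ioc t (t + k), f m / m -
      (∑ m ∈ Finset.Ioc t (t + k), f m) / ((t + k : ℕ) + 1)| ≤
        2 * Q * (1 / ((t : ℝ) + 1) - 1 / (((t + k : ℕ) : ℝ) + 1)) := by
    intro k
    induction k with
    | zero => simp
    | succ k ih =>
      rw [← add_assoc, Finset.sum_Ioc_succ_top (by omega), Finset.sum_Ioc_succ_top (by omega)]
      have hD := sum_Ioc_le hf t (t + k + 1) (by omega)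
      rw [Finset.sum_Ioc_succ_top (by omega)] at hD
      set D := ∑ m ∈ Finset.Ioc t (t + k), f m with hDdef
      set E := ∑ m ∈ Finset.Ioc t (t + k), f m / m with hE
      have hp : (0 : ℝ) < ((t + k : ℕ) : ℝ) + 1 := by positivity
      have hp2 : (0 : ℝ) < ((t + k : ℕ) : ℝ) + 2 := by positivity
      have e : E + f (t + k + 1) / ((t + k + 1 : ℕ) : ℝ) -
          (D + f (t + k + 1)) / (((t + k + 1 : ℕ) : ℝ) + 1) =
          (E - D / (((t + k : ℕ) : ℝ) + 1)) +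
            (D + f (t + k + 1)) * (1 / (((t + k : ℕ) : ℝ) + 1) - 1 / (((t + k : ℕ) : ℝ) + 2)) := by
        push_cast
        have hp' : ((t : ℝ) + k + 1) ≠ 0 := by positivity
        have hp2' : ((t : ℝ) + k + 2) ≠ 0 := by positivity
        have hp3' : ((t : ℝ) + k + 1 + 1) ≠ 0 := by positivity
        field_simp
        ring
      rw [e]
      have hd : 0 ≤ 1 / (((t + k : ℕ) : ℝ) + 1) - 1 / (((t + k : ℕ) : ℝ) + 2) := by
        rw [sub_nonneg]
        exact one_div_le_one_div_of_le hp (by linarith)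
      have h1 := abs_add_le (E - D / (((t + k : ℕ) : ℝ) + 1))
        ((D + f (t + k + 1)) * (1 / (((t + k : ℕ) : ℝ) + 1) - 1 / (((t + k : ℕ) : ℝ) + 2)))
      have h2 : |(D + f (t + k + 1)) *
          (1 / (((t + k : ℕ) : ℝ) + 1) - 1 / (((t + k : ℕ) : ℝ) + 2))| ≤
          2 * Q * (1 / (((t + k : ℕ) : ℝ) + 1) - 1 / (((t + k : ℕ) : ℝ) + 2)) := by
        rw [abs_mul, abs_of_nonneg hd]
        exact mul_le_mul_of_nonneg_right hD hd
      have e2 : 1 / ((t : ℝ) + 1) - 1 / (((t + k + 1 : ℕ) : ℝ) + 1) =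
          (1 / ((t : ℝ) + 1) - 1 / (((t + k : ℕ) : ℝ) + 1)) +
            (1 / (((t + k : ℕ) : ℝ) + 1) - 1 / (((t + k : ℕ) : ℝ) + 2)) := by
        push_cast
        ring
      rw [e2, mul_add]
      linarith
  obtain ⟨k, rfl⟩ := Nat.exists_eq_add_of_le h
  have h1 := key k
  have h2 := sum_Ioc_le hf t (t + k) h
  have hp : (0 : ℝ) < ((t + k : ℕ) : ℝ) + 1 := by positivity
  have h3 : |(∑ m ∈ Finset.Ioc t (t + k), f m) / (((t + k : ℕ) : ℝ) + 1)| ≤
      2 * Q * (1 / (((t + k : ℕ) : ℝ) + 1)) := by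
    rw [abs_div, abs_of_pos hp, div_eq_mul_one_div]
    exact mul_le_mul_of_nonneg_right h2 (by positivity)
  have h4 := abs_add_le (∑ m ∈ Finset.Ioc t (t + k), f m / m -
      (∑ m ∈ Finset.Ioc t (t + k), f m) / (((t + k : ℕ) : ℝ) + 1))
      ((∑ m ∈ Finset.Ioc t (t + k), f m) / (((t + k : ℕ) : ℝ) + 1))
  rw [sub_add_cancel] at h4
  have h5 : 2 * Q / ((t : ℝ) + 1) = 2 * Q * (1 / ((t : ℝ) + 1) - 1 / (((t + k : ℕ) : ℝ) + 1)) +
      2 * Q * (1 / (((t + k : ℕ) : ℝ) + 1)) := by ring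
  rw [h5]
  linarith

/-- telescoping -/
theorem tel (M r : ℝ) (hM : 1 < M) (hr : 0 < r) (hr1 : r ≤ 1) :
    M ^ (-r - 1) ≤ 1 / r * ((M - 1) ^ (-r) - M ^ (-r)) := by
  have hM0 : 0 < M := by linarith
  have hM1 : 0 < M - 1 := by linarith
  have h1 : (1 + (-(1 / M))) ^ r ≤ 1 + r * (-(1 / M)) :=
    rpow_one_add_le_one_add_mul_self (by
      have : 1 / M ≤ 1 := by rw [div_le_one hM0]; exact hM.le
      linarith) hr.le hr1
  have h2 : 0 < 1 + (-(1 / M)) := by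
    have : 1 / M < 1 := by rw [div_lt_one hM0]; exact hM
    linarith
  have e1 : M - 1 = M * (1 + (-(1 / M))) := by field_simp; ring
  have h3 : 0 < (1 + (-(1 / M))) ^ r := Real.rpow_pos_of_pos h2 r
  have h4 : 1 + r / M ≤ (1 + (-(1 / M))) ^ (-r) := by
    rw [Real.rpow_neg h2.le, ← one_div, le_div_iff₀ h3]
    have h5 : 0 ≤ 1 + r / M := by positivity
    calc (1 + r / M) * (1 + (-(1 / M))) ^ r ≤ (1 + r / M) * (1 + r * (-(1 / M))) :=
          mul_le_mul_of_nonneg_left h1 h5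
      _ = 1 - (r / M) ^ 2 := by ring
      _ ≤ 1 := by nlinarith [sq_nonneg (r / M)]
  have e2 : (M - 1) ^ (-r) = M ^ (-r) * (1 + (-(1 / M))) ^ (-r) := by
    rw [e1, Real.mul_rpow hM0.le h2.le]
  have e3 : M ^ (-r - 1) = M ^ (-r) / M := by rw [Real.rpow_sub_one hM0.ne']
  rw [e2, e3]
  have h6 : 0 < M ^ (-r) := Real.rpow_pos_of_pos hM0 _
  have h7 : M ^ (-r) * (1 + r / M) ≤ M ^ (-r) * (1 + (-(1 / M))) ^ (-r) :=
    mul_le_mul_of_nonneg_left h4 h6.le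
  rw [div_le_iff₀ hM0]
  have h8 : M ^ (-r) = 1 / r * (M ^ (-r) * (1 + r / M) - M ^ (-r)) * M := by
    field_simp
    ring
  calc M ^ (-r) = 1 / r * (M ^ (-r) * (1 + r / M) - M ^ (-r)) * M := h8
    _ ≤ 1 / r * (M ^ (-r) * (1 + (-(1 / M))) ^ (-r) - M ^ (-r)) * M := by
      apply mul_le_mul_of_nonneg_right _ hM0.le
      apply mul_le_mul_of_nonneg_left _ (by positivity)
      linarith

/-- the step of the Abel summation -/
theorem step (w : ℝ) (β : ℝ) (hw : 0 < w) (h1 : 7 / 8 ≤ β) (h2 : β ≤ 1) :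
    Real.sqrt w * (w ^ (-β) - (w + 1) ^ (-β)) ≤
      11 / 3 * (w ^ (-(β - 1 / 2)) - (w + 1) ^ (-(β - 1 / 2))) := by
  have hw1 : 0 < w + 1 := by linarith
  have hr : 0 < β - 1 / 2 := by linarith
  have e1 : Real.sqrt w * w ^ (-β) = w ^ (-(β - 1 / 2)) := by
    rw [Real.sqrt_eq_rpow, ← Real.rpow_add hw]
    congr 1
    ring
  have e2 : Real.sqrt (w + 1) * (w + 1) ^ (-β) = (w + 1) ^ (-(β - 1 / 2)) := by
    rw [Real.sqrt_eq_rpow, ← Real.rpow_add hw1]
    congr 1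
    ring
  have hs1 : 0 < Real.sqrt (w + 1) := Real.sqrt_pos.2 hw1
  have hs0 : 0 ≤ Real.sqrt w := Real.sqrt_nonneg _
  have h3 : (Real.sqrt (w + 1) - Real.sqrt w) * Real.sqrt (w + 1) ≤ 1 := by
    have a1 := Real.mul_self_sqrt hw1.le
    have a2 := Real.mul_self_sqrt hw.le
    have a3 : Real.sqrt w ≤ Real.sqrt (w + 1) := Real.sqrt_le_sqrt (by linarith)
    nlinarith
  have h4 : (Real.sqrt (w + 1) - Real.sqrt w) * (w + 1) ^ (-β) ≤ (w + 1) ^ (-(β - 1 / 2) - 1) := by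
    have e3 : (w + 1) ^ (-(β - 1 / 2) - 1) = (w + 1) ^ (-β) / Real.sqrt (w + 1) := by
      rw [Real.sqrt_eq_rpow, ← Real.rpow_sub hw1]
      congr 1
      ring
    rw [e3, le_div_iff₀ hs1]
    have h5 : 0 < (w + 1) ^ (-β) := Real.rpow_pos_of_pos hw1 _
    nlinarith
  have h6 := tel (w + 1) (β - 1 / 2) (by linarith) hr (by linarith)
  rw [add_sub_cancel_right] at h6
  have h7 : 0 ≤ w ^ (-(β - 1 / 2)) - (w + 1) ^ (-(β - 1 / 2)) := by
    rw [sub_nonneg]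
    exact Real.rpow_le_rpow_of_nonpos hw (by linarith) (by linarith)
  have h8 : 1 / (β - 1 / 2) ≤ 8 / 3 := by
    rw [div_le_div_iff₀ hr (by norm_num)]
    linarith
  have h9 : 1 / (β - 1 / 2) * (w ^ (-(β - 1 / 2)) - (w + 1) ^ (-(β - 1 / 2))) ≤
      8 / 3 * (w ^ (-(β - 1 / 2)) - (w + 1) ^ (-(β - 1 / 2))) :=
    mul_le_mul_of_nonneg_right h8 h7
  have e4 : Real.sqrt w * (w ^ (-β) - (w + 1) ^ (-β)) =
      (w ^ (-(β - 1 / 2)) - (w + 1) ^ (-(β - 1 / 2))) +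
        (Real.sqrt (w + 1) - Real.sqrt w) * (w + 1) ^ (-β) := by
    rw [← e1, ← e2]
    ring
  rw [e4]
  linarith

/-- Abel summation with partial sums of size `K √m` -/
theorem abel (c : ℕ → ℝ) (K β : ℝ) (hK : 0 ≤ K) (y : ℕ) (hy : 1 ≤ y) (h1 : 7 / 8 ≤ β) (h2 : β ≤ 1)
    (hT : ∀ u : ℕ, |∑ n ∈ Finset.Icc 1 u, c n| ≤ K * Real.sqrt u) (w : ℕ) (hw : y ≤ w) :
    |∑ m ∈ Finset.Ioc y w, c m * (m : ℝ) ^ (-β)| ≤ 22 / 3 * K * (y : ℝ) ^ (-(β - 1 / 2)) := by
  have hD : ∀ v : ℕ, y ≤ v → |∑ m ∈ Finset.Ioc y v, c m| ≤ 2 * K * Real.sqrt v := by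
    intro v hv
    rw [sum_Ioc_eq c y v hv]
    have a1 := hT v
    have a2 := hT y
    have a3 := abs_sub (∑ m ∈ Finset.Icc 1 v, c m) (∑ m ∈ Finset.Icc 1 y, c m)
    have a4 : Real.sqrt y ≤ Real.sqrt v := Real.sqrt_le_sqrt (by exact_mod_cast hv)
    have a5 : K * Real.sqrt y ≤ K * Real.sqrt v := mul_le_mul_of_nonneg_left a4 hK
    linarith
  have key : ∀ k : ℕ, |∑ m ∈ Finset.Ioc y (y + k), c m * (m : ℝ) ^ (-β) -
      (∑ m ∈ Finset.Ioc y (y + k), c m) * ((y + k : ℕ) : ℝ) ^ (-β)| ≤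
        22 / 3 * K * ((y : ℝ) ^ (-(β - 1 / 2)) - ((y + k : ℕ) : ℝ) ^ (-(β - 1 / 2))) := by
    intro k
    induction k with
    | zero => simp
    | succ k ih =>
      rw [← add_assoc, Finset.sum_Ioc_succ_top (by omega), Finset.sum_Ioc_succ_top (by omega)]
      have hDk := hD (y + k) (by omega)
      set D := ∑ m ∈ Finset.Ioc y (y + k), c m with hDdef
      set E := ∑ m ∈ Finset.Ioc y (y + k), c m * (m : ℝ) ^ (-β) with hE
      have hpos : (0 : ℝ) < ((y + k : ℕ) : ℝ) := by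
        exact_mod_cast (by omega : 0 < y + k)
      have hcast : ((y + k + 1 : ℕ) : ℝ) = ((y + k : ℕ) : ℝ) + 1 := by push_cast; ring
      rw [hcast]
      have hst := step ((y + k : ℕ) : ℝ) β hpos h1 h2
      set W := ((y + k : ℕ) : ℝ) with hW
      have e : E + c (y + k + 1) * (W + 1) ^ (-β) - (D + c (y + k + 1)) * (W + 1) ^ (-β) =
          (E - D * W ^ (-β)) + D * (W ^ (-β) - (W + 1) ^ (-β)) := by ring
      rw [e]
      have hd : 0 ≤ W ^ (-β) - (W + 1) ^ (-β) := by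
        rw [sub_nonneg]
        exact Real.rpow_le_rpow_of_nonpos hpos (by linarith) (by linarith)
      have a1 := abs_add_le (E - D * W ^ (-β)) (D * (W ^ (-β) - (W + 1) ^ (-β)))
      have a2 : |D * (W ^ (-β) - (W + 1) ^ (-β))| ≤
          2 * K * (11 / 3 * (W ^ (-(β - 1 / 2)) - (W + 1) ^ (-(β - 1 / 2)))) := by
        rw [abs_mul, abs_of_nonneg hd]
        calc |D| * (W ^ (-β) - (W + 1) ^ (-β)) ≤
              (2 * K * Real.sqrt W) * (W ^ (-β) - (W + 1) ^ (-β)) :=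
              mul_le_mul_of_nonneg_right hDk hd
          _ = 2 * K * (Real.sqrt W * (W ^ (-β) - (W + 1) ^ (-β))) := by ring
          _ ≤ _ := mul_le_mul_of_nonneg_left hst (by positivity)
      have e2 : 22 / 3 * K * ((y : ℝ) ^ (-(β - 1 / 2)) - (W + 1) ^ (-(β - 1 / 2))) =
          22 / 3 * K * ((y : ℝ) ^ (-(β - 1 / 2)) - W ^ (-(β - 1 / 2))) +
          2 * K * (11 / 3 * (W ^ (-(β - 1 / 2)) - (W + 1) ^ (-(β - 1 / 2)))) := by ring
      rw [e2]
      linarith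
  obtain ⟨k, rfl⟩ := Nat.exists_eq_add_of_le hw
  have a1 := key k
  have a2 := hD (y + k) hw
  have hpos : (0 : ℝ) < ((y + k : ℕ) : ℝ) := by
    exact_mod_cast (by omega : 0 < y + k)
  set W := ((y + k : ℕ) : ℝ) with hW
  have e1 : Real.sqrt W * W ^ (-β) = W ^ (-(β - 1 / 2)) := by
    rw [Real.sqrt_eq_rpow, ← Real.rpow_add hpos]
    congr 1
    ring
  have a3 : |(∑ m ∈ Finset.Ioc y (y + k), c m) * W ^ (-β)| ≤ 2 * K * W ^ (-(β - 1 / 2)) := by
    rw [abs_mul, abs_of_pos (Real.rpow_pos_of_pos hpos _), ← e1, ← mul_assoc]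
    exact mul_le_mul_of_nonneg_right a2 (Real.rpow_pos_of_pos hpos _).le
  have a4 := abs_add_le (∑ m ∈ Finset.Ioc y (y + k), c m * (m : ℝ) ^ (-β) -
      (∑ m ∈ Finset.Ioc y (y + k), c m) * W ^ (-β)) ((∑ m ∈ Finset.Ioc y (y + k), c m) * W ^ (-β))
  rw [sub_add_cancel] at a4
  have a5 : 0 < W ^ (-(β - 1 / 2)) := Real.rpow_pos_of_pos hpos _
  nlinarith [mul_nonneg hK a5.le]

/-- the difference of the truncated values -/
theorem la_diff {f h : ℕ → ℝ} {Q : ℝ} (hf : Chr f Q) (hh : Chr h Q) (s : ℕ) (hs : 1 ≤ s) :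
    |la (cv f h) (s * s) - la f (s * s) * la h (s * s)| ≤ 4 * (Q / s) + 4 * (Q / s) ^ 2 := by
  have hQ := Q_nonneg hf
  have hsR : (0 : ℝ) < s := by exact_mod_cast hs
  have e0 : la (cv f h) (s * s) = ∑ n ∈ Finset.Icc 1 (s * s), ∑ m ∈ n.divisors,
      (fun a : ℕ => f a / a) m * (fun b : ℕ => h b / b) (n / m) := by
    unfold la cv
    refine Finset.sum_congr rfl fun n hn => ?_
    have hn0 : n ≠ 0 := by
      have := (Finset.mem_Icc.1 hn).1
      omega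
    rw [Finset.sum_div]
    refine Finset.sum_congr rfl fun m hm => ?_
    have hmd := (Nat.mem_divisors.1 hm).1
    have e1 : (n : ℝ) = (m : ℝ) * ((n / m : ℕ) : ℝ) := by
      rw [← Nat.cast_mul, Nat.mul_div_cancel' hmd]
    show f m * h (n / m) / (n : ℝ) = f m / (m : ℝ) * (h (n / m) / ((n / m : ℕ) : ℝ))
    rw [div_mul_div_comm, ← e1]
  rw [hyper (fun a : ℕ => f a / a) (fun b : ℕ => h b / b) (s * s) s le_rfl (by nlinarith)] at e0
  set A : ℕ → ℝ := fun t => ∑ m ∈ Finset.Icc 1 t, f m / m with hA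
  set B : ℕ → ℝ := fun t => ∑ m ∈ Finset.Icc 1 t, h m / m with hB
  have hsy : s ≤ s * s := Nat.le_mul_of_pos_left s hs
  have hdiv : ∀ a ∈ Finset.Icc 1 s, s ≤ s * s / a ∧ s * s / a ≤ s * s := by
    intro a ha
    obtain ⟨ha1, ha2⟩ := Finset.mem_Icc.1 ha
    refine ⟨?_, Nat.div_le_self _ _⟩
    rw [Nat.le_div_iff_mul_le ha1]
    exact Nat.mul_le_mul_left s ha2
  have hlaf : la f (s * s) = A (s * s) := rfl
  have hlah : la h (s * s) = B (s * s) := rfl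
  have e1 : la (cv f h) (s * s) = ∑ a ∈ Finset.Icc 1 s, f a / a * B (s * s / a) +
      ∑ b ∈ Finset.Icc 1 s, h b / b * (A (s * s / b) - A s) := by
    rw [e0]
    congr 1
    refine Finset.sum_congr rfl fun b hb => ?_
    rw [sum_Ioc_eq (fun a : ℕ => f a / a) s (s * s / b) (hdiv b hb).1]
  have e2 : la f (s * s) * la h (s * s) - la (cv f h) (s * s) =
      ∑ a ∈ Finset.Icc 1 s, f a / a * (B (s * s) - B (s * s / a)) +
      ∑ b ∈ Finset.Icc 1 s, h b / b * (A (s * s) - A (s * s / b)) +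
      (A (s * s) - A s) * (B (s * s) - B s) := by
    have b1 : ∑ a ∈ Finset.Icc 1 s, f a / a * (B (s * s) - B (s * s / a)) =
        A s * B (s * s) - ∑ a ∈ Finset.Icc 1 s, f a / a * B (s * s / a) := by
      simp only [mul_sub, Finset.sum_sub_distrib, hA, ← Finset.sum_mul]
    have b2 : ∑ b ∈ Finset.Icc 1 s, h b / b * (A (s * s) - A (s * s / b)) =
        B s * A (s * s) - ∑ b ∈ Finset.Icc 1 s, h b / b * A (s * s / b) := by
      simp only [mul_sub, Finset.sum_sub_distrib, hB, ← Finset.sum_mul]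
    have b3 : ∑ b ∈ Finset.Icc 1 s, h b / b * (A (s * s / b) - A s) =
        ∑ b ∈ Finset.Icc 1 s, h b / b * A (s * s / b) - B s * A s := by
      simp only [mul_sub, Finset.sum_sub_distrib, hB, ← Finset.sum_mul]
    rw [b1, b2, e1, b3, hlaf, hlah]
    ring
  have tA : ∀ t : ℕ, t ≤ s * s → |A (s * s) - A t| ≤ 2 * Q / (t + 1) := by
    intro t ht
    have := tail hf t (s * s) ht
    rwa [sum_Ioc_eq (fun m : ℕ => f m / m) t (s * s) ht] at this
  have tB : ∀ t : ℕ, t ≤ s * s → |B (s * s) - B t| ≤ 2 * Q / (t + 1) := by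
    intro t ht
    have := tail hh t (s * s) ht
    rwa [sum_Ioc_eq (fun m : ℕ => h m / m) t (s * s) ht] at this
  have part : ∀ (φ : ℕ → ℝ) (G : ℕ → ℝ), (∀ n, |φ n| ≤ 1) →
      (∀ t : ℕ, t ≤ s * s → |G (s * s) - G t| ≤ 2 * Q / (t + 1)) →
      |∑ a ∈ Finset.Icc 1 s, φ a / a * (G (s * s) - G (s * s / a))| ≤ 2 * (Q / s) := by
    intro φ G hφ hG
    refine (Finset.abs_sum_le_sum_abs _ _).trans ?_
    refine (Finset.sum_le_sum (g := fun _ => 2 * Q / ((s : ℝ) * s)) fun a ha => ?_).trans ?_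
    · have ha1 : (0 : ℝ) < a := by exact_mod_cast (Finset.mem_Icc.1 ha).1
      have h3 := hG (s * s / a) (hdiv a ha).2
      rw [abs_mul, abs_div, abs_of_pos ha1]
      have h4 : |φ a| / (a : ℝ) ≤ 1 / a := div_le_div_of_nonneg_right (hφ a) ha1.le
      have h5 : (s : ℝ) * s / a ≤ ((s * s / a : ℕ) : ℝ) + 1 := by
        have := Nat.lt_floor_add_one ((s : ℝ) * s / a)
        have e : ⌊(s : ℝ) * s / a⌋₊ = s * s / a := by
          rw [← Nat.cast_mul, Nat.floor_div_eq_div]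
        rw [e] at this
        exact this.le
      have h6 : 2 * Q / (((s * s / a : ℕ) : ℝ) + 1) ≤ 2 * Q / ((s : ℝ) * s / a) :=
        div_le_div_of_nonneg_left (by positivity) (by positivity) h5
      calc |φ a| / (a : ℝ) * |G (s * s) - G (s * s / a)| ≤ 1 / a * (2 * Q / ((s : ℝ) * s / a)) :=
            mul_le_mul h4 (h3.trans h6) (abs_nonneg _) (by positivity)
        _ = 2 * Q / ((s : ℝ) * s) := by field_simp
    · rw [Finset.sum_const, Nat.card_Icc, nsmul_eq_mul, Nat.add_sub_cancel]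
      apply le_of_eq
      field_simp
  have p1 := part f B (val_le hf) tB
  have p2 := part h A (val_le hh) tA
  have p3 : |(A (s * s) - A s) * (B (s * s) - B s)| ≤ 4 * (Q / s) ^ 2 := by
    rw [abs_mul]
    have q1 : 2 * Q / ((s : ℝ) + 1) ≤ 2 * (Q / s) := by
      rw [mul_div_assoc]
      apply mul_le_mul_of_nonneg_left _ (by norm_num)
      exact div_le_div_of_nonneg_left hQ hsR (by linarith)
    have q2 := (tA s hsy).trans q1
    have q3 := (tB s hsy).trans q1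
    calc |A (s * s) - A s| * |B (s * s) - B s| ≤ (2 * (Q / s)) * (2 * (Q / s)) :=
          mul_le_mul q2 q3 (abs_nonneg _) (by positivity)
      _ = 4 * (Q / s) ^ 2 := by ring
  rw [abs_sub_comm, e2]
  have r1 := abs_add_le (∑ a ∈ Finset.Icc 1 s, f a / a * (B (s * s) - B (s * s / a)) +
      ∑ b ∈ Finset.Icc 1 s, h b / b * (A (s * s) - A (s * s / b)))
      ((A (s * s) - A s) * (B (s * s) - B s))
  have r2 := abs_add_le (∑ a ∈ Finset.Icc 1 s, f a / a * (B (s * s) - B (s * s / a)))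
      (∑ b ∈ Finset.Icc 1 s, h b / b * (A (s * s) - A (s * s / b)))
  linarith

theorem t_PSI : E_PSI := by
  refine ⟨22, by norm_num, fun X hX f h hf hh => ⟨?_, ?_⟩⟩
  · intro β hβ1 hβ2 w hw
    have hXR : (1 : ℝ) ≤ X := by exact_mod_cast (by omega : 1 ≤ X)
    have hX0 : (0 : ℝ) < X := by linarith
    have h1 := abel (cv f h) (3 * (X : ℝ) ^ 2) β (by positivity) (X ^ 16)
      (Nat.one_le_pow _ _ (by omega)) hβ1 hβ2 (fun u => T_le hf hh u) w hw
    refine h1.trans ?_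
    have h2 : ((X ^ 16 : ℕ) : ℝ) ^ (-(β - 1 / 2)) ≤ 1 / (X : ℝ) ^ 6 := by
      have hb : (1 : ℝ) ≤ ((X ^ 16 : ℕ) : ℝ) := by exact_mod_cast Nat.one_le_pow _ _ (by omega)
      calc ((X ^ 16 : ℕ) : ℝ) ^ (-(β - 1 / 2)) ≤ ((X ^ 16 : ℕ) : ℝ) ^ (-(3 / 8) : ℝ) :=
            Real.rpow_le_rpow_of_exponent_le hb (by linarith)
        _ = 1 / (X : ℝ) ^ 6 := by
          push_cast
          rw [← Real.rpow_natCast, ← Real.rpow_mul hX0.le, one_div, ← Real.rpow_natCast,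
            ← Real.rpow_neg hX0.le]
          norm_num
    have h3 : 22 / 3 * (3 * (X : ℝ) ^ 2) * ((X ^ 16 : ℕ) : ℝ) ^ (-(β - 1 / 2)) ≤
        22 / 3 * (3 * (X : ℝ) ^ 2) * (1 / (X : ℝ) ^ 6) := mul_le_mul_of_nonneg_left h2 (by positivity)
    refine h3.trans (le_of_eq ?_)
    field_simp
  · have hXR : (1 : ℝ) ≤ X := by exact_mod_cast (by omega : 1 ≤ X)
    have hX0 : (0 : ℝ) < X := by linarith
    have h1 := la_diff hf hh (X ^ 8) (Nat.one_le_pow _ _ (by omega))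
    have e : X ^ 8 * X ^ 8 = X ^ 16 := by ring
    rw [e] at h1
    refine h1.trans ?_
    have h2 : (X : ℝ) ^ 2 / ((X ^ 8 : ℕ) : ℝ) = 1 / (X : ℝ) ^ 6 := by
      push_cast
      field_simp
    rw [h2]
    have h3 : 1 / (X : ℝ) ^ 6 ≤ 1 := by
      rw [div_le_one (by positivity)]
      exact one_le_pow₀ hXR
    have h4 : 0 < 1 / (X : ℝ) ^ 6 := by positivity
    have h5 : (22 : ℝ) / (X : ℝ) ^ 6 = 22 * (1 / (X : ℝ) ^ 6) := by ring
    rw [h5]
    nlinarith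

end Pool.Agent.N692.RP
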